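import Mathlib
import Pool.Agent.H987Z.US.Defs
import Pool.Agent.H987Z.US.Main

set_option autoImplicit false

namespace Pool.Agent.Results.MP_10b896_lc.ANotUnivStructurable

open Pool.Agent.H987Z.US

/-- There is a countable Borel equivalence relation which is Borel isomorphic to its continuum
multiple and is not universally structurable. -/
theorem result : ∃ (X : Type) (_ : MeasurableSpace X) (_ : StandardBorelSpace X)
    (E : X → X → Prop), IsCBER E ∧ BorelIso (realMul E) E ∧ ¬ UniversallyStructurable E :=
  main

end Pool.Agent.Results.MP_10b896_lc.ANotUnivStructurable
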